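import Mathlib
import Pool.Agent.MP_35cb46_co.Main

namespace Pool.Agent.Results.MP_35cb46_co.LinearInP

open Pool.Agent.MP_7be75d_co

/-- `ℓ(p, q) ≤ C p q ^ c` with absolute constants `C` and `c`. -/
theorem result : ∃ C c : ℕ, ∀ p q : ℕ, 1 ≤ p → 1 ≤ q →
    ∀ (V : Type) [Fintype V] (G : SimpleGraph V), C * p * q ^ c ≤ treewidth G →
      ∃ n : ℕ, 1 ≤ n ∧ ∃ S : Fin n → Set V,
        (∀ i j, i ≠ j → Disjoint (S i) (S j)) ∧ (∀ i, (G.induce (S i)).Connected) ∧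
        (∀ i, p ≤ treewidth (G.induce (S i))) ∧
        q ≤ treewidth (SimpleGraph.fromRel fun i j : Fin n => ∃ x ∈ S i, ∃ y ∈ S j, G.Adj x y) :=
  Pool.Agent.MP_35cb46_co.main

end Pool.Agent.Results.MP_35cb46_co.LinearInP
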