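import Mathlib
import Pool.Agent.MP_35cb46_co.fl.All

namespace Pool.Agent.Results.MP_35cb46_co.Polylog

open Pool.Agent.MP_7be75d_co

/-- `ℓ(p, q) ≤ C p q (1 + log (p q)) ^ k` with absolute constants `C` and `k`. -/
theorem result : ∃ (C : ℝ) (k : ℕ), ∀ p q : ℕ, 1 ≤ p → 1 ≤ q →
    ∀ (V : Type) [Fintype V] (G : SimpleGraph V),
      C * (p : ℝ) * (q : ℝ) * (1 + Real.log ((p : ℝ) * (q : ℝ))) ^ k ≤ (treewidth G : ℝ) →
      ∃ n : ℕ, 1 ≤ n ∧ ∃ S : Fin n → Set V,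
        (∀ i j, i ≠ j → Disjoint (S i) (S j)) ∧ (∀ i, (G.induce (S i)).Connected) ∧
        (∀ i, p ≤ treewidth (G.induce (S i))) ∧
        q ≤ treewidth (SimpleGraph.fromRel fun i j : Fin n => ∃ x ∈ S i, ∃ y ∈ S j, G.Adj x y) :=
  Pool.Agent.MP_35cb46_co.Fl.main

end Pool.Agent.Results.MP_35cb46_co.Polylog
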